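import Pool.Agent.N193.PS.Gold
import Pool.Agent.W93.PG7
import Pool.Agent.H560R3.GB.Defs

/-!
# Goldbach representations in primorial intervals near the values of functions of non-integral index

Definitions used (starting file `Pool.Agent.H560R3.GB.Defs`): `sing m`: the singular series
`2 C₂ ∏_{p ∣ m, p > 2} (p - 1) / (p - 2)`, where `C₂` is the twin prime constant `∏_{p > 2} (1 - 1 / (p - 1) ^ 2)`.
From Mathlib: `ContDiffAt ℝ ⊤`: infinitely differentiable at a point; `iteratedDeriv m f`: the derivative of order `m`;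
`⌊y⌋₊`: the integer part of `y`, and `0` for `y < 0`.

Method: the characteristic function of the integer part of `f n` is small at all frequencies which are not close to
integers (van der Corput differencing and the inequality of Kusmin and Landau on dyadic blocks for all orders of
differencing, a discrete Fejer kernel for the passage to integer parts), and the values are not concentrated on short
intervals. The passage from such exponential sums to Goldbach representations in windows is from the starting files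
(`Pool.Agent.W93`, `Pool.Agent.TH872.An3`) and from `Pool.Agent.N625.DY` (helper625).
-/

set_option autoImplicit false

namespace Pool.Agent.Results.MP_484fb8_nt.NonIntegralOrderNeighbourhoods

open Finset Filter Pool.Agent.H560R3.GB

/-- `f` is smoothly varying of index `c`: it is infinitely differentiable and positive for large arguments, and
`t ^ m f⁽ᵐ⁾(t) / f(t) → c (c - 1) ... (c - m + 1)` for every `m`. -/
def SmoothlyVarying (c : ℝ) (f : ℝ → ℝ) : Prop :=
  (∃ t₀ : ℝ, ∀ t > t₀, ContDiffAt ℝ ((⊤ : ℕ∞) : WithTop ℕ∞) f t ∧ 0 < f t) ∧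
  ∀ m : ℕ, Tendsto (fun t => t ^ m * iteratedDeriv m f t / f t) atTop (nhds (∏ i ∈ range m, (c - i)))

/-- `#(n)`: the product of the first `n` primes. -/
noncomputable def P (n : ℕ) : ℕ := ∏ i ∈ range n, Nat.nth Nat.Prime i

/-- The number of primes `p` in the `n`-th primorial interval such that `m - p` is a prime which lies in the
`n`-th or in the `n + 1`-st primorial interval. -/
noncomputable def R (n m : ℕ) : ℕ :=
  ((Icc (P (n - 1) + 1) (P n + 1)).filter
    (fun p => p.Prime ∧ (m - p).Prime ∧ P (n - 1) + 1 ≤ m - p ∧ m - p ≤ P (n + 1) + 1)).card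

/-- The number of primes `p` with `y₁ < p ≤ y₂` such that `m - p` is a prime. -/
def cnt (m y₁ y₂ : ℕ) : ℕ := ((Ioc y₁ y₂).filter (fun p => p.Prime ∧ (m - p).Prime)).card

/-- If `m` belongs to the `n + 1`-st primorial interval (`n ≥ 1`), then (1) `m = p + q` where `p` is a prime in the
`n`-th primorial interval and `q` is a prime in the `n`-th or in the `n + 1`-st one; (2) up to a relative
error of at most `ε`, the number of these representations is `sing m * #(n) / log ^ 2 m`; (3) in every window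
`(y₁, y₂]` of `(0, #(n)]` of a length of at least `#(n) / log ^ W m` the number of the primes `p` with `m - p` prime
is `sing m * (y₂ - y₁) / log ^ 2 m`, up to a relative error of at most `ε`. -/
def Holds (ε : ℝ) (W m : ℕ) : Prop :=
  ∀ n : ℕ, 1 ≤ n → P n + 1 ≤ m → m ≤ P (n + 1) + 1 →
    (∃ p q : ℕ, p.Prime ∧ q.Prime ∧ m = p + q ∧ P (n - 1) + 1 ≤ p ∧ p ≤ P n + 1 ∧ P (n - 1) + 1 ≤ q ∧ q ≤ P (n + 1) + 1) ∧
    |(R n m : ℝ) - sing m * P n / Real.log m ^ 2| ≤ ε * (sing m * P n / Real.log m ^ 2) ∧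
    ∀ y₁ y₂ : ℕ, y₁ < y₂ → y₂ ≤ P n → (P n : ℝ) / Real.log m ^ W ≤ (y₂ : ℝ) - y₁ →
      |(cnt m y₁ y₂ : ℝ) - sing m * ((y₂ : ℝ) - y₁) / Real.log m ^ 2| ≤
        ε * (sing m * ((y₂ : ℝ) - y₁) / Real.log m ^ 2)

lemma next_le : ∃ m₀ : ℕ, ∀ m : ℕ, m₀ ≤ m → 6 ≤ Real.log m ∧ ∀ n : ℕ, P n + 1 ≤ m → m ≤ P (n + 1) + 1 →
    (m : ℝ) ≤ P n * Real.log m ^ 2 := by
  obtain ⟨n0, h0⟩ := Pool.Agent.W93.PG.next_prime
  obtain ⟨m1, h1⟩ := Pool.Agent.H373R2.T7.ev_L' 6
  refine ⟨P (n0 + 1) + m1 + 3, fun m hm => ?_⟩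
  have hL6 : 6 ≤ Real.log m := h1 m (by omega)
  refine ⟨hL6, fun n h2 h3 => ?_⟩
  have hmono : ∀ i j : ℕ, i ≤ j → P i ≤ P j := fun i j hij => Pool.Agent.W93.PG.PR_mono hij
  have hn : n0 ≤ n := by
    by_contra hcon
    have := hmono (n + 1) (n0 + 1) (by omega)
    omega
  have h4 := h0 n hn
  have hP1 : 1 ≤ P n := Pool.Agent.W93.PG.PR_pos n
  have hP : (1 : ℝ) ≤ P n := by exact_mod_cast hP1
  have hPR : (Pool.Agent.W93.PG.PR n : ℝ) = P n := rfl
  rw [hPR] at h4
  have h5 : Real.log (P n) ≤ Real.log m := Real.log_le_log (by linarith) (by exact_mod_cast (by omega : P n ≤ m))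
  have h6 : (P (n + 1) : ℝ) = P n * Nat.nth Nat.Prime n := by
    have h7 := Pool.Agent.W93.PG.PR_succ n
    exact_mod_cast h7
  have h8 : (m : ℝ) ≤ P (n + 1) + 1 := by exact_mod_cast h3
  calc (m : ℝ) ≤ P n * Nat.nth Nat.Prime n + 1 := by rw [← h6]; exact h8
    _ ≤ P n * (4 * Real.log m + 1) + P n := by
        apply add_le_add _ hP
        apply mul_le_mul_of_nonneg_left _ (by linarith)
        linarith
    _ = P n * (4 * Real.log m + 2) := by ring
    _ ≤ P n * Real.log m ^ 2 := by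
        apply mul_le_mul_of_nonneg_left _ (by linarith)
        nlinarith

theorem holds_of (ε : ℝ) (hε : 0 < ε) (W : ℕ) : ∃ m₀ : ℕ, ∀ m : ℕ, m₀ ≤ m → 2 ∣ m →
    Pool.Agent.W93.PG.WinP (min ε (1 / 2) / 4) (W + 2) m → Holds ε W m := by
  obtain ⟨m₀, h0⟩ := Pool.Agent.W93.PG.reps_of_win (min ε (1 / 2)) (lt_min hε (by norm_num))
    ((min_le_right _ _).trans (by norm_num))
  obtain ⟨m₁, h1⟩ := next_le
  refine ⟨m₀ + m₁ + 3, ?_⟩
  intro m hm _ hwin n hn h2 h3
  obtain ⟨hL6, hnext⟩ := h1 m (by omega)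
  have hL1 : 1 ≤ Real.log m := by linarith
  have hlog : 0 < Real.log m := by linarith
  have hm0 : (3 : ℝ) ≤ m := by exact_mod_cast (by omega : 3 ≤ m)
  have hwin2 : Pool.Agent.W93.PG.WinP (min ε (1 / 2) / 4) 2 m := by
    intro y₁ y₂ k1 k2 k3
    refine hwin y₁ y₂ k1 k2 (le_trans ?_ k3)
    exact div_le_div_of_nonneg_left (by linarith) (by positivity) (pow_le_pow_right₀ hL1 (by omega))
  have h4 := h0 m (by omega) hwin2 n hn h2 h3
  have hs := Pool.Agent.W93.GB.one_le_sing m
  have hP : (0 : ℝ) < P n := by exact_mod_cast Pool.Agent.W93.PG.PR_pos n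
  have hmain : 0 < sing m * P n / Real.log m ^ 2 := by positivity
  have hR : R n m = Pool.Agent.W93.PG.reps n m := rfl
  have hPR : Pool.Agent.W93.PG.PR n = P n := rfl
  rw [← hR, hPR] at h4
  have h5 : |(R n m : ℝ) - sing m * P n / Real.log m ^ 2| ≤ ε * (sing m * P n / Real.log m ^ 2) :=
    h4.trans (mul_le_mul_of_nonneg_right (min_le_left _ _) hmain.le)
  have h6 : |(R n m : ℝ) - sing m * P n / Real.log m ^ 2| ≤ 1 / 2 * (sing m * P n / Real.log m ^ 2) :=
    h4.trans (mul_le_mul_of_nonneg_right (min_le_right _ _) hmain.le)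
  refine ⟨?_, h5, ?_⟩
  · have h7 : (0 : ℝ) < R n m := by
      rw [abs_le] at h6
      linarith [h6.1]
    have h8 : 0 < R n m := by exact_mod_cast h7
    unfold R at h8
    rw [card_pos] at h8
    obtain ⟨p, hp⟩ := h8
    rw [mem_filter, mem_Icc] at hp
    obtain ⟨⟨p1, p2⟩, p3, p4, p5, p6⟩ := hp
    exact ⟨p, m - p, p3, p4, by have := p4.pos; omega, p1, p2, p5, p6⟩
  · intro y₁ y₂ k1 k2 k3
    have h7 := hnext n h2 h3
    have h8 : (m : ℝ) / Real.log m ^ (W + 2) ≤ P n / Real.log m ^ W := by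
      rw [div_le_div_iff₀ (by positivity) (by positivity)]
      calc (m : ℝ) * Real.log m ^ W ≤ (P n * Real.log m ^ 2) * Real.log m ^ W := by gcongr
        _ = P n * Real.log m ^ (W + 2) := by ring
    refine (hwin y₁ y₂ k1 (by omega) (h8.trans k3)).trans ?_
    apply mul_le_mul_of_nonneg_right
    · have : min ε (1 / 2) ≤ ε := min_le_left _ _
      have : 0 < min ε (1 / 2) := lt_min hε (by norm_num)
      linarith
    · have : (0 : ℝ) ≤ (y₂ : ℝ) - y₁ := by
        have : (y₁ : ℝ) ≤ y₂ := by exact_mod_cast k1.le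
        linarith
      positivity

open Pool.Agent.N193.PS

open Classical in
/-- **(1)** Let `f` be smoothly varying of an index `c > 0` which is not an integer, and let `κ ≠ 0`, `B`, `A`, `W`, `U`, `a` and
`ε > 0` be fixed. Let `N` be large, let `x` be such that `f n ≤ N` for the integers `1 ≤ n ≤ x` and
`N ≤ f x log ^ a N`, and let `|c₀| ≤ B N`. Then all the integers `1 ≤ n ≤ x`, with at most `x / log ^ U N` exceptions,
have the following property: every positive even integer `m` at a distance of at most `log ^ W N` from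
`c₀ + κ ⌊f n⌋` satisfies the assertion of the problem: if `m` lies in the
`n + 1`-st primorial interval, `n ≥ 1`, it is the sum of a prime of the `n`-th interval and of a prime of the `n`-th or
of the `n + 1`-st interval; and the number of these representations, also in windows of the `n`-th interval of a length
of at least `#(n) / log ^ A m`, is as predicted, up to a relative error of at most `ε`.

**(2)** Part (1) applies to all the functions `f t = ∑ a z t ^ z.1 (log t) ^ z.2` (finite sums) with a leading term `z₀`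
whose coefficient is positive and whose exponent `c = z₀.1` is positive and not an integer; for example to `n ^ c`. -/
theorem result :
    (∀ (c : ℝ) (f : ℝ → ℝ), 0 < c → (∀ m : ℕ, c ≠ m) → SmoothlyVarying c f →
      ∀ (κ : ℤ), κ ≠ 0 → ∀ (B A W U a : ℕ) (ε : ℝ), 0 < ε → ∃ N₀ : ℕ, ∀ N : ℕ, N₀ ≤ N → ∀ x : ℕ,
      (∀ n ∈ Icc 1 x, f n ≤ N) → (N : ℝ) ≤ Real.log N ^ a * f x →
      ∀ c₀ : ℤ, |c₀| ≤ B * N →
        (((Icc 1 x).filter fun n : ℕ => ¬ ∀ m : ℤ, ((|m - (c₀ + κ * (⌊f n⌋₊ : ℕ))| : ℤ) : ℝ) ≤ Real.log N ^ W →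
          0 < m → Even m → Holds ε A m.toNat).card : ℝ) ≤ x / Real.log N ^ U) ∧
    (∀ (F : Finset (ℝ × ℝ)) (a : ℝ × ℝ → ℝ) (z₀ : ℝ × ℝ), z₀ ∈ F → 0 < a z₀ →
      (∀ z ∈ F, z ≠ z₀ → z.1 < z₀.1 ∨ z.1 = z₀.1 ∧ z.2 < z₀.2) →
      SmoothlyVarying z₀.1 (fun t => ∑ z ∈ F, a z * t ^ z.1 * Real.log t ^ z.2)) := by
  refine ⟨fun c f hc hn hf κ hκ B A W U a ε hε => ?_, fun F a z₀ h1 h2 h3 => gp_sv F a z₀ h1 h2 h3⟩
  obtain ⟨m₀, h0⟩ := holds_of ε hε A
  exact sv_gold c f hc hn hf κ hκ B (A + 2) W U a m₀ (min ε (1 / 2) / 4)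
    (div_pos (lt_min hε (by norm_num)) (by norm_num)) (Holds ε A) h0

end Pool.Agent.Results.MP_484fb8_nt.NonIntegralOrderNeighbourhoods
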