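import Pool.Agent.N193.PS.Gold
import Pool.Agent.Results.MP_61161c_nt.DigitPermutations

/-!
# Sums of two distinct and almost equal odd primes near the values of functions of non-integral index

Definitions used (starting file `Pool.Agent.H560R3.GB.Defs`): `sing m`: the singular series
`2 C₂ ∏_{p ∣ m, p > 2} (p - 1) / (p - 2)`, where `C₂` is the twin prime constant `∏_{p > 2} (1 - 1 / (p - 1) ^ 2)`.
From Mathlib: `ContDiffAt ℝ ⊤`: infinitely differentiable at a point; `iteratedDeriv m f`: the derivative of order `m`;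
`⌊y⌋₊`: the integer part of `y`, and `0` for `y < 0`.

Method: the characteristic function of the integer part of `f n` is small at all frequencies which are not close to
integers (van der Corput differencing and the inequality of Kusmin and Landau on dyadic blocks for all orders of
differencing, a discrete Fejer kernel for the passage to integer parts), and the values are not concentrated on short
intervals. The passage from such exponential sums to Goldbach representations in windows is from the starting files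
(`Pool.Agent.W93`, `Pool.Agent.TH872.An3`) and from `Pool.Agent.N625.DY` (helper625).
-/

set_option autoImplicit false

namespace Pool.Agent.Results.MP_61161c_nt.NonIntegralOrderNeighbourhoods

open Finset Filter Pool.Agent.H560R3.GB

/-- `f` is smoothly varying of index `c`: it is infinitely differentiable and positive for large arguments, and
`t ^ m f⁽ᵐ⁾(t) / f(t) → c (c - 1) ... (c - m + 1)` for every `m`. -/
def SmoothlyVarying (c : ℝ) (f : ℝ → ℝ) : Prop :=
  (∃ t₀ : ℝ, ∀ t > t₀, ContDiffAt ℝ ((⊤ : ℕ∞) : WithTop ℕ∞) f t ∧ 0 < f t) ∧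
  ∀ m : ℕ, Tendsto (fun t => t ^ m * iteratedDeriv m f t / f t) atTop (nhds (∏ i ∈ range m, (c - i)))

/-- The number of the `p` such that `p` and `p' = m - p` are odd primes, `p < p'` and `p' - p ≤ H`. -/
def K (m H : ℕ) : ℕ :=
  ((range m).filter (fun p => p.Prime ∧ p ≠ 2 ∧ (m - p).Prime ∧ m - p ≠ 2 ∧ p < m - p ∧ m - p ≤ p + H)).card

/-- For every `H` with `m / log ^ A m ≤ H ≤ m` there are distinct odd primes `p < p'` with `p + p' = m` and
`p' - p ≤ H`, and the number of these pairs is `sing m * H / (2 log ^ 2 m)` up to a relative error of at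
most `ε`. -/
def Holds (ε : ℝ) (A m : ℕ) : Prop :=
  ∀ H : ℕ, H ≤ m → (m : ℝ) / Real.log m ^ A ≤ H →
    (∃ p p' : ℕ, p.Prime ∧ p'.Prime ∧ p ≠ 2 ∧ p' ≠ 2 ∧ p < p' ∧ p + p' = m ∧ p' - p ≤ H) ∧
    |(K m H : ℝ) - sing m * H / (2 * Real.log m ^ 2)| ≤ ε * (sing m * H / (2 * Real.log m ^ 2))

open Pool.Agent.N193.PS

open Classical in
/-- **(1)** Let `f` be smoothly varying of an index `c > 0` which is not an integer, and let `κ ≠ 0`, `B`, `A`, `W`, `U`, `a` and
`ε > 0` be fixed. Let `N` be large, let `x` be such that `f n ≤ N` for the integers `1 ≤ n ≤ x` and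
`N ≤ f x log ^ a N`, and let `|c₀| ≤ B N`. Then all the integers `1 ≤ n ≤ x`, with at most `x / log ^ U N` exceptions,
have the following property: every positive even integer `m` at a distance of at most `log ^ W N` from
`c₀ + κ ⌊f n⌋` is a sum of two distinct odd primes `p < p'`, even with `p' - p ≤ H` for every `H` with
`m / log ^ A m ≤ H ≤ m`, and the number of these representations is as predicted, up to a relative error of at most `ε`.

**(2)** Part (1) applies to all the functions `f t = ∑ a z t ^ z.1 (log t) ^ z.2` (finite sums) with a leading term `z₀`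
whose coefficient is positive and whose exponent `c = z₀.1` is positive and not an integer; for example to `n ^ c`. -/
theorem result :
    (∀ (c : ℝ) (f : ℝ → ℝ), 0 < c → (∀ m : ℕ, c ≠ m) → SmoothlyVarying c f →
      ∀ (κ : ℤ), κ ≠ 0 → ∀ (B A W U a : ℕ) (ε : ℝ), 0 < ε → ∃ N₀ : ℕ, ∀ N : ℕ, N₀ ≤ N → ∀ x : ℕ,
      (∀ n ∈ Icc 1 x, f n ≤ N) → (N : ℝ) ≤ Real.log N ^ a * f x →
      ∀ c₀ : ℤ, |c₀| ≤ B * N →
        (((Icc 1 x).filter fun n : ℕ => ¬ ∀ m : ℤ, ((|m - (c₀ + κ * (⌊f n⌋₊ : ℕ))| : ℤ) : ℝ) ≤ Real.log N ^ W →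
          0 < m → Even m → Holds ε A m.toNat).card : ℝ) ≤ x / Real.log N ^ U) ∧
    (∀ (F : Finset (ℝ × ℝ)) (a : ℝ × ℝ → ℝ) (z₀ : ℝ × ℝ), z₀ ∈ F → 0 < a z₀ →
      (∀ z ∈ F, z ≠ z₀ → z.1 < z₀.1 ∨ z.1 = z₀.1 ∧ z.2 < z₀.2) →
      SmoothlyVarying z₀.1 (fun t => ∑ z ∈ F, a z * t ^ z.1 * Real.log t ^ z.2)) := by
  refine ⟨fun c f hc hn hf κ hκ B A W U a ε hε => ?_, fun F a z₀ h1 h2 h3 => gp_sv F a z₀ h1 h2 h3⟩
  obtain ⟨m₀, h0⟩ := MP_61161c_nt.DigitPermutations.holds_of A ε hε
  exact sv_gold c f hc hn hf κ hκ B (A + 1) W U a m₀ (min ε (1 / 2) / 2)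
    (div_pos (lt_min hε (by norm_num)) (by norm_num)) (Holds ε A) h0

end Pool.Agent.Results.MP_61161c_nt.NonIntegralOrderNeighbourhoods
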