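import Pool.Agent.N193.PS.Tup

/-!
# Prime tuples whose shifts are near the integer parts of smoothly varying functions of non-integral index

The asymptotic formula of Hardy and Littlewood for almost all vectors of integer parts of functions like
`n ^ c (log n) ^ q` with any exponents `c > 0` which are not integers, and simultaneously for all the vectors of shifts
in a box of side `log ^ W N` at such a vector. The values `⌊n ^ c⌋` form a set with about `N ^ (1 / c)` elements below
`N`, and `c` can be arbitrarily large.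

Definitions used: `Pool.Agent.H373R2.T7.singZ a z`: the partial product over the primes `p ≤ z` of
`(1 - ν(p) / p) / (1 - 1 / p) ^ (s + 1)`, where `ν(p)` is the number of `r < p` for which `p` divides
`r (r + a 1) ... (r + a s)`; `Pool.Agent.H373R2.T7.tupleCount a N`: the sum of
`log p * ∏ i, log (p + a i)` over the primes `p ≤ N` for which all `p + a i` are primes;
`Pool.Agent.H373R2.T7.Admissible a`: for every prime `p` there is an `r` such that `p` divides neither
`r` nor any `r + a i`; `Pool.Agent.H560R3.GB.primeTuples a N`: the number of primes `p ≤ N` for which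
all `p + a i` are primes. From Mathlib: `ContDiffAt ℝ ⊤`: infinitely differentiable at a point; `iteratedDeriv m f`:
the derivative of order `m`; `⌊y⌋₊`: the integer part of `y`, and `0` for `y < 0`.

Method: the characteristic function of the integer part of `f n` is small at all frequencies which are not close to
integers (van der Corput differencing and the inequality of Kusmin and Landau on dyadic blocks for all orders of
differencing, a discrete Fejer kernel for the passage to integer parts), and the values are not concentrated on short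
intervals. The passage from one random shift to prime tuples is from the starting files (`Pool.Agent.W93`,
`Pool.Agent.TH890`) and from `Pool.Agent.N469.PT.Ws` (helper469) and `Pool.Agent.N625.DY.H` (helper625).
-/

set_option autoImplicit false

namespace Pool.Agent.Results.MP_8923e7_nt.NonIntegralOrderTuples

open Finset Filter Pool.Agent.H560R3.GB
open Pool.Agent.H373R2.T7 (singZ tupleCount Admissible)

/-- `f` is smoothly varying of index `c`: it is infinitely differentiable and positive for large arguments, and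
`t ^ m f⁽ᵐ⁾(t) / f(t) → c (c - 1) ... (c - m + 1)` for every `m`. -/
def SmoothlyVarying (c : ℝ) (f : ℝ → ℝ) : Prop :=
  (∃ t₀ : ℝ, ∀ t > t₀, ContDiffAt ℝ ((⊤ : ℕ∞) : WithTop ℕ∞) f t ∧ 0 < f t) ∧
  ∀ m : ℕ, Tendsto (fun t => t ^ m * iteratedDeriv m f t / f t) atTop (nhds (∏ i ∈ range m, (c - i)))

/-- The formula of Hardy and Littlewood for the shifts `a 1, ..., a s` and the primes up to `N`: the
singular series converges, its sum `S` predicts the weighted number of prime tuples with an error of
at most `N / log ^ U N`, and, if the shifts are admissible, `S` is positive and `S N / log ^ (s + 1) N`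
predicts the number of prime tuples with a relative error of at most `ε`. -/
def Holds {s : ℕ} (ε : ℝ) (U N : ℕ) (a : Fin s → ℕ) : Prop :=
  ∃ S : ℝ, Filter.Tendsto (fun z => singZ (fun i => (a i : ℤ)) z) Filter.atTop (nhds S) ∧
    |tupleCount (fun i => (a i : ℤ)) N - S * N| ≤ (N : ℝ) / Real.log N ^ U ∧
    (Admissible (fun i => (a i : ℤ)) → 0 < S ∧
      |(primeTuples a N : ℝ) - S * (N / Real.log N ^ (s + 1))| ≤ ε * (S * (N / Real.log N ^ (s + 1))))

open Pool.Agent.N193.PS

open Classical in
/-- **(1)** Let `s ≥ 1`, let `f i` for `i < s` be smoothly varying of indices `c i > 0` which are not integers, and let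
`κ i ≥ 1`, `B`, `U`, `W`, `A` and `ε > 0` be fixed. Let `N` be large, let `x i` be such that `f i n ≤ N` for the
integers `1 ≤ n ≤ x i` and `N ≤ f i (x i) log ^ A N`, and let `0 ≤ c₀ i ≤ B N`. Then for all the vectors
`(n 1, ..., n s)` with `1 ≤ n i ≤ x i`, with the exception of a proportion of at most `1 / log ^ U N`, the formula of
Hardy and Littlewood for the primes `p ≤ N` and the tuple `p, p + a 1, ..., p + a s` holds for all the shifts
`a i = c₀ i + κ i ⌊f i (n i)⌋ + t i` with `0 ≤ t i ≤ log ^ W N`.

**(2)** Part (1) applies to all the functions `f t = ∑ a z t ^ z.1 (log t) ^ z.2` (finite sums) with a leading term `z₀`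
whose coefficient is positive and whose exponent `c = z₀.1` is positive and not an integer; for example to `n ^ c`. -/
theorem result :
    (∀ (s : ℕ), 1 ≤ s → ∀ (c : Fin s → ℝ) (f : Fin s → ℝ → ℝ), (∀ i, 0 < c i) → (∀ i, ∀ m : ℕ, c i ≠ m) →
      (∀ i, SmoothlyVarying (c i) (f i)) → ∀ (κ : Fin s → ℕ), (∀ i, 1 ≤ κ i) → ∀ (B U W A : ℕ) (ε : ℝ), 0 < ε →
      ∃ N₀ : ℕ, ∀ N : ℕ, N₀ ≤ N → ∀ x : Fin s → ℕ, (∀ i, ∀ n ∈ Icc 1 (x i), f i n ≤ N) →
        (∀ i, (N : ℝ) ≤ Real.log N ^ A * f i (x i)) → ∀ c₀ : Fin s → ℕ, (∀ i, c₀ i ≤ B * N) →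
        (((Fintype.piFinset fun i => Icc 1 (x i)).filter fun n => ¬ ∀ t : Fin s → ℕ,
          (∀ i, (t i : ℝ) ≤ Real.log N ^ W) → Holds ε U N (fun i => c₀ i + κ i * ⌊f i (n i)⌋₊ + t i)).card : ℝ) ≤
          (∏ i, (x i : ℝ)) / Real.log N ^ U) ∧
    (∀ (F : Finset (ℝ × ℝ)) (a : ℝ × ℝ → ℝ) (z₀ : ℝ × ℝ), z₀ ∈ F → 0 < a z₀ →
      (∀ z ∈ F, z ≠ z₀ → z.1 < z₀.1 ∨ z.1 = z₀.1 ∧ z.2 < z₀.2) →
      SmoothlyVarying z₀.1 (fun t => ∑ z ∈ F, a z * t ^ z.1 * Real.log t ^ z.2)) := by
  refine ⟨fun s hs c f hc hn hf κ hκ B U W A ε hε => ?_, fun F a z₀ h1 h2 h3 => gp_sv F a z₀ h1 h2 h3⟩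
  obtain ⟨N₀, h⟩ := sv_tuples s hs c (fun i m => iteratedDeriv m (f i)) (fun i => sv_of (c i) (hc i) (hn i) (f i) (hf i))
    κ hκ B U W A ε hε
  refine ⟨N₀, fun N hN x hup hlow c₀ hc₀ => ?_⟩
  have h1 := h N hN x (by simpa only [iteratedDeriv_zero] using hup) (by simpa only [iteratedDeriv_zero] using hlow) c₀ hc₀
  exact h1

end Pool.Agent.Results.MP_8923e7_nt.NonIntegralOrderTuples
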