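import Pool.Agent.N193.PS.Conv

/-!
# Joint correlations of the von Mangoldt and Liouville functions with one shift near the values of a smoothly varying
function of non-integral index

Method: the characteristic function of the integer part of `f n` is small at all frequencies which are not close to
integers (van der Corput differencing and the inequality of Kusmin and Landau on dyadic blocks for all orders of
differencing, a discrete Fejer kernel for the passage to integer parts), and the values are not concentrated on short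
intervals. The passage from such bounds to the correlations is from the libraries `Pool.Agent.W93`, `Pool.Agent.R459`
(starting files) and `Pool.Agent.N625.DY` (helper625).
From Mathlib: `ArithmeticFunction.vonMangoldt`; `ArithmeticFunction.cardFactors n`: the number of the prime factors of
`n` with multiplicity; `ContDiffAt ℝ ⊤`: infinitely differentiable at a point; `iteratedDeriv m f`: the derivative of
order `m`; `⌊y⌋₊`: the integer part of `y`, and `0` for `y < 0`.
-/

set_option autoImplicit false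

namespace Pool.Agent.Results.MP_e6fa8b_nt.NonIntegralOrderShifts

open Finset Filter

/-- `f` is smoothly varying of index `c`: it is infinitely differentiable and positive for large arguments, and
`t ^ m f⁽ᵐ⁾(t) / f(t) → c (c - 1) ... (c - m + 1)` for every `m`. -/
def SmoothlyVarying (c : ℝ) (f : ℝ → ℝ) : Prop :=
  (∃ t₀ : ℝ, ∀ t > t₀, ContDiffAt ℝ ((⊤ : ℕ∞) : WithTop ℕ∞) f t ∧ 0 < f t) ∧
  ∀ m : ℕ, Tendsto (fun t => t ^ m * iteratedDeriv m f t / f t) atTop (nhds (∏ i ∈ range m, (c - i)))

/-- The Liouville function on the integers, `0` at the integers `m ≤ 0`, with complex values. -/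
noncomputable def lam (m : ℤ) : ℂ := if 1 ≤ m then (-1) ^ ArithmeticFunction.cardFactors m.toNat else 0

/-- For all the shifts `y'` of the Liouville function at a distance of at most `log ^ W N` from `y`, all `l` and all `X`
with `α l X ≤ B N`:
`|∑ n ≤ X, θ l n * (∏ i, Λ (a l i * n + h l i)) * λ (α l * n + y')| ≤ N / log ^ U N`. -/
def Small (B U W N : ℕ) {r L : ℕ} (α : Fin L → ℕ) (a h : Fin L → Fin r → ℕ) (θ : Fin L → ℕ → ℂ) (y : ℤ) : Prop :=
  ∀ y' : ℤ, ((|y' - y| : ℤ) : ℝ) ≤ Real.log N ^ W → ∀ l, ∀ X : ℕ, α l * X ≤ B * N →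
    ‖∑ n ∈ Icc 1 X, θ l n * (∏ i, (ArithmeticFunction.vonMangoldt (a l i * n + h l i) : ℂ)) * lam (α l * n + y')‖ ≤
      N / Real.log N ^ U

lemma lam_eq (m : ℤ) : lam m = (Pool.Agent.R459.Shift.lam m : ℂ) := by
  unfold lam Pool.Agent.R459.Shift.lam
  split_ifs <;> simp

open Pool.Agent.N193.PS

lemma small_of (B U W N : ℕ) (hN : 4 ≤ N) {r L : ℕ} (α : Fin L → ℕ) (a h : Fin L → Fin r → ℕ) (θ : Fin L → ℕ → ℂ) (y : ℤ)
    (hs : Pool.Agent.N625.DY.Small B (U + 1) W (2 ^ dg N) (dg N) α a h θ y) : Small B U W N α a h θ y := by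
  intro y' hy' l X hX
  have h1 : |y' - y| ≤ ((dg N : ℕ) : ℤ) ^ W := by
    have h2 : ((|y' - y| : ℤ) : ℝ) ≤ ((((dg N : ℕ) : ℤ) ^ W : ℤ) : ℝ) := by
      refine hy'.trans ?_
      push_cast
      exact pow_le_pow_left₀ (Real.log_natCast_nonneg N) (log_le_dg N (by omega)) W
    exact_mod_cast h2
  have h2 := hs y' h1 l X (hX.trans (Nat.mul_le_mul_left _ (lt_dg N).le))
  simp only [lam_eq]
  exact h2.trans (scale N U hN)

open Classical in
/-- **(1)** Let `f` be smoothly varying of an index `c > 0` which is not an integer, and let `κ ≠ 0`, `r`, `B`, `T`, `W`, `U`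
and `A` be fixed. Let `N` be large and let `x` be such that `f n ≤ N` for the integers `1 ≤ n ≤ x` and
`N ≤ f x log ^ A N`. Let `|c₀| ≤ B N`, and for each of at most `log ^ T N` indices `l` let `α l ≥ 1`, let
`a l i n + h l i` for `i < r` be arbitrary linear forms with non-negative coefficients `≤ N ^ B`, and let
`θ l : ℕ → ℂ` be an arbitrary function bounded by `1` (for example a product of further values of the Liouville
function). Then for all but at most `x / log ^ U N` of the `n ≤ x`, all the shifts `y'` at a distance of at most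
`log ^ W N` from `c₀ + κ ⌊f n⌋` satisfy
`|∑ m ≤ X, θ l m * (∏ i, Λ (a l i * m + h l i)) * λ (α l * m + y')| ≤ N / log ^ U N`
for all `l` and all `X ≤ B N / α l`.

**(2)** Part (1) applies to all the functions `f t = ∑ a z t ^ z.1 (log t) ^ z.2` (finite sums) with a leading term `z₀`
whose coefficient is positive and whose exponent `c = z₀.1` is positive and not an integer; for example to `n ^ c`. -/
theorem result :
    (∀ (c : ℝ) (f : ℝ → ℝ), 0 < c → (∀ m : ℕ, c ≠ m) → SmoothlyVarying c f →
      ∀ (κ : ℤ), κ ≠ 0 → ∀ (r B T W U A : ℕ), ∃ N₀ : ℕ, ∀ N : ℕ, N₀ ≤ N → ∀ x : ℕ,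
      (∀ n ∈ Icc 1 x, f n ≤ N) → (N : ℝ) ≤ Real.log N ^ A * f x →
      ∀ c₀ : ℤ, |c₀| ≤ B * N → ∀ L : ℕ, (L : ℝ) ≤ Real.log N ^ T →
      ∀ (α : Fin L → ℕ) (a h : Fin L → Fin r → ℕ) (θ : Fin L → ℕ → ℂ),
        (∀ l, 1 ≤ α l) → (∀ l i, a l i ≤ N ^ B ∧ h l i ≤ N ^ B) → (∀ l n, ‖θ l n‖ ≤ 1) →
        (((Icc 1 x).filter fun n : ℕ => ¬ Small B U W N α a h θ (c₀ + κ * (⌊f n⌋₊ : ℕ))).card : ℝ) ≤
          x / Real.log N ^ U) ∧
    (∀ (F : Finset (ℝ × ℝ)) (a : ℝ × ℝ → ℝ) (z₀ : ℝ × ℝ), z₀ ∈ F → 0 < a z₀ →
      (∀ z ∈ F, z ≠ z₀ → z.1 < z₀.1 ∨ z.1 = z₀.1 ∧ z.2 < z₀.2) →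
      SmoothlyVarying z₀.1 (fun t => ∑ z ∈ F, a z * t ^ z.1 * Real.log t ^ z.2)) := by
  refine ⟨fun c f hc hn hf κ hκ r B T W U A => ?_, fun F a z₀ h1 h2 h3 => gp_sv F a z₀ h1 h2 h3⟩
  have hsv := sv_of c hc hn f hf
  obtain ⟨k₀, h0⟩ := Pool.Agent.N625.DY.cls_joint (hsv.clsV (A + 1) κ hκ).toCls r B T W (U + 1)
  refine ⟨2 ^ k₀ + 4, fun N hN x hup hlow c₀ hc₀ L hL α a h θ hα hah hθ => ?_⟩
  rcases Nat.eq_zero_or_pos x with rfl | hx
  · simp
  have hk2 : 0 < 2 ^ k₀ := by positivity
  have hN4 : 4 ≤ N := by omega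
  have hNk : N ≤ 2 ^ dg N := (lt_dg N).le
  obtain ⟨hval, hsize⟩ := conv (fun m => iteratedDeriv m f) A N x hN4
    (by simpa only [iteratedDeriv_zero] using hup) (by simpa only [iteratedDeriv_zero] using hlow)
  have h1 := count_of (A + 1) (dg N) x hx hval hsize
    (fun v => Pool.Agent.N625.DY.Small B (U + 1) W (2 ^ dg N) (dg N) α a h θ (c₀ + κ * (v : ℕ))) (1 / (dg N : ℝ) ^ (U + 1))
    (fun p hp => h0 (dg N) (dg_large k₀ N (by omega)) p hp c₀ (by
        refine hc₀.trans (mul_le_mul_of_nonneg_left ?_ (Nat.cast_nonneg _))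
        exact_mod_cast hNk) L
      (hL.trans (pow_le_pow_left₀ (Real.log_natCast_nonneg N) (log_le_dg N (by omega)) T)) α a h θ hα
      (fun l i => by
        have h2 : N ^ B ≤ 2 ^ (B * dg N) := by
          rw [mul_comm, pow_mul]
          exact Nat.pow_le_pow_left hNk B
        exact ⟨(hah l i).1.trans h2, (hah l i).2.trans h2⟩) hθ)
  refine le_trans ?_ (h1.trans (scale_x N U x hN4))
  apply Nat.cast_le.2
  apply card_le_card
  intro n hn
  rw [mem_filter] at hn ⊢
  refine ⟨hn.1, fun hcon => hn.2 ?_⟩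
  rw [val_iter] at hcon
  exact small_of B U W N hN4 α a h θ _ hcon

end Pool.Agent.Results.MP_e6fa8b_nt.NonIntegralOrderShifts

/-
Claim file of this former hand-in (MP_e6fa8b_nt.NonIntegralOrderShifts, helper193), moved here by helper675 with the
consent of the lead (ask 16170) in exchange for MP_e6fa8b_nt.PrimeTuplesWithClusters:

Proves: Let f be smoothly varying of index c>0, c not an integer (e.g. t^c; part (2): all sums of a t^x log^y t whose leading term has a>0 and x=c), integer κ≠0, r, B, T, W, U, A fixed. For large N, f(n)≤N for n≤x, N≤f(x)log^A N, integers |c0|≤BN, at most log^T N systems α_l≥1, linear forms a_{l,i}m+h_{l,i} (i<r, natural coefficients ≤N^B) and arbitrary |θ_l|≤1: for all but x/log^U N of the n≤x, |Σ_{m≤X} θ_l(m) ∏_i Λ(a_{l,i}m+h_{l,i}) λ(α_l m+y')| ≤ N/log^U N for all y' within log^W N of c0+κ⌊f(n)⌋, all l and all X≤BN/α_l.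
Definitions: SmoothlyVarying c f: f is smooth and positive for large t and t^m f^(m)(t)/f(t) → c(c-1)...(c-m+1) for every m. lam: Liouville function on the integers, 0 at m≤0. Small: the displayed bounds for all shifts near y.
Relation: Partial answer to Q1 (case ℓ≥1): with one Liouville shift at or near ⌊f(n)⌋, almost all n, and all other von Mangoldt and Liouville factors arbitrary and fixed in advance, the correlation is o(N). New for these sparse sequences of integers (about N^(1/c) members), in particular for ⌊n^c⌋; the starting files have digit families, automatic sets and random sums of scales. New input: log-power bounds for the sums of e(θ⌊f(n)⌋) at all θ away from the integers.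
-/
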