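import Pool.Agent.N193.PS.Chow

/-!
# The Liouville function at the values of arbitrary polynomials times many linear factors, the constant terms of which are
values of functions of non-integral index

From Mathlib: `ContDiffAt ℝ ⊤`: infinitely differentiable at a point; `iteratedDeriv m f`: the derivative of order `m`;
`⌊y⌋₊`: the integer part of `y`, and `0` for `y < 0`.

Method: the characteristic function of the integer part of `f n` is small at all frequencies which are not close to
integers (van der Corput differencing and the inequality of Kusmin and Landau on dyadic blocks for all orders of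
differencing, a discrete Fejer kernel for the passage to integer parts), and the values are not concentrated on short
intervals. The passage from such
exponential sums to correlations is from the starting files (`Pool.Agent.W93.AU`, `Pool.Agent.R459.LawNear`); the passage
from one factor to many factors is the general principle of the starting files (`Pool.Agent.R501.CP2`).
-/

set_option autoImplicit false

namespace Pool.Agent.Results.MP_648c71_nt.ManyNonIntegralOrderFactors

open Finset Filter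

/-- `f` is smoothly varying of index `c`: it is infinitely differentiable and positive for large arguments, and
`t ^ m f⁽ᵐ⁾(t) / f(t) → c (c - 1) ... (c - m + 1)` for every `m`. -/
def SmoothlyVarying (c : ℝ) (f : ℝ → ℝ) : Prop :=
  (∃ t₀ : ℝ, ∀ t > t₀, ContDiffAt ℝ ((⊤ : ℕ∞) : WithTop ℕ∞) f t ∧ 0 < f t) ∧
  ∀ m : ℕ, Tendsto (fun t => t ^ m * iteratedDeriv m f t / f t) atTop (nhds (∏ i ∈ range m, (c - i)))

/-- The Liouville function on the integers, `λ(-m) = λ(m)` and `λ(0) = 0`. -/
def lam (m : ℤ) : ℤ := if m = 0 then 0 else (-1) ^ ArithmeticFunction.cardFactors m.natAbs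

/-- The sum of `λ(F(t))` over the integers `t` with `u ≤ t ≤ v` and `t ≡ r mod q`, where `F` is the product of the
polynomial `g` and of the polynomials `α i T + h i`, `i ∈ I`. -/
noncomputable def lamSum {s : ℕ} (g : Polynomial ℤ) (α : Fin s → ℕ) (h : Fin s → ℤ) (I : Finset (Fin s)) (q : ℕ)
    (r u v : ℤ) : ℤ :=
  ∑ t ∈ (Icc u v).filter (fun t => t ≡ r [ZMOD q]),
    lam ((g * ∏ i ∈ I, (Polynomial.C (α i : ℤ) * Polynomial.X + Polynomial.C (h i))).eval t)

/-- All the sums are small: for all `l`, all nonempty sets `I` of indices, all residue classes `r` modulo `q ≤ (log N) ^ T`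
and all integers `u`, `v` with `α i |u| ≤ B N` and `α i |v| ≤ B N` for all `i ∈ I`, the sum of `λ(F(t))` over the `t` with
`u ≤ t ≤ v` and `t ≡ r mod q` is at most `N / (log N) ^ U` in absolute value, where `F = g l * ∏ i ∈ I, (α i T + h i)`. -/
def Small (B T U N : ℕ) {s L : ℕ} (g : Fin L → Polynomial ℤ) (α : Fin s → ℕ) (h : Fin s → ℤ) : Prop :=
  ∀ l, ∀ I : Finset (Fin s), I.Nonempty → ∀ q : ℕ, 1 ≤ q → (q : ℝ) ≤ Real.log N ^ T → ∀ r u v : ℤ,
    (∀ i ∈ I, (α i : ℤ) * |u| ≤ B * N ∧ (α i : ℤ) * |v| ≤ B * N) →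
    |((lamSum (g l) α h I q r u v : ℤ) : ℝ)| ≤ N / Real.log N ^ U

open Pool.Agent.N193.PS

open Classical in
/-- **(1)** Let `f j`, `j < J`, be smoothly varying of indices `c j > 0` which are not integers, and let `B`, `T`, `U` and `A` be
fixed. Let `N` be large and `2 ^ s ≤ (log N) ^ T` (so the number `s` of the linear factors may tend to infinity). For `i < s`
let `j i` be an index, let `x i` be such that `f (j i) n ≤ N` for the integers `1 ≤ n ≤ x i` and
`N ≤ f (j i) (x i) log ^ A N`, let `|c₀ i| ≤ B N`, `κ i ≠ 0`, `|κ i| ≤ B` and `α i ≥ 1`. Let `g l` be at most `(log N) ^ T`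
arbitrary polynomials with integer coefficients (of any degree). Then all the vectors `n` with `1 ≤ n i ≤ x i`, with at most
`(∏ x i) / log ^ U N` exceptions, have the following property: with `h i = c₀ i + κ i ⌊f (j i) (n i)⌋` and
`F = g l * ∏ i ∈ I, (α i T + h i)` we have `|∑ λ(F(t))| ≤ N / (log N) ^ U` for all `l` and all nonempty sets `I` of indices,
the sum over the `t ≡ r mod q` in an arbitrary interval `[u, v]` with `α i |u|, α i |v| ≤ B N` for all `i ∈ I`, for all residue
classes `r` modulo all `q ≤ (log N) ^ T`.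

**(2)** Part (1) applies to all the functions `f t = ∑ a z t ^ z.1 (log t) ^ z.2` (finite sums) with a leading term `z₀`
whose coefficient is positive and whose exponent `c = z₀.1` is positive and not an integer; for example to `n ^ c`. -/
theorem result :
    (∀ (J : ℕ) (c : Fin J → ℝ) (f : Fin J → ℝ → ℝ), (∀ j, 0 < c j) → (∀ j, ∀ m : ℕ, c j ≠ m) →
      (∀ j, SmoothlyVarying (c j) (f j)) → ∀ (B T U A : ℕ), ∃ N₀ : ℕ, ∀ N : ℕ, N₀ ≤ N →
      ∀ s L : ℕ, (2 : ℝ) ^ s ≤ Real.log N ^ T → (L : ℝ) ≤ Real.log N ^ T → ∀ (j : Fin s → Fin J) (x : Fin s → ℕ),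
      (∀ i, ∀ n ∈ Icc 1 (x i), f (j i) n ≤ N) → (∀ i, (N : ℝ) ≤ Real.log N ^ A * f (j i) (x i)) →
      ∀ c₀ κ : Fin s → ℤ, (∀ i, |c₀ i| ≤ B * N) → (∀ i, κ i ≠ 0 ∧ |κ i| ≤ B) → ∀ α : Fin s → ℕ, (∀ i, 1 ≤ α i) →
      ∀ g : Fin L → Polynomial ℤ,
        (((Fintype.piFinset fun i => Icc 1 (x i)).filter fun n =>
          ¬ Small B T U N g α (fun i => c₀ i + κ i * (⌊f (j i) (n i)⌋₊ : ℕ))).card : ℝ) ≤
          (∏ i, (x i : ℝ)) / Real.log N ^ U) ∧
    (∀ (F : Finset (ℝ × ℝ)) (a : ℝ × ℝ → ℝ) (z₀ : ℝ × ℝ), z₀ ∈ F → 0 < a z₀ →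
      (∀ z ∈ F, z ≠ z₀ → z.1 < z₀.1 ∨ z.1 = z₀.1 ∧ z.2 < z₀.2) →
      SmoothlyVarying z₀.1 (fun t => ∑ z ∈ F, a z * t ^ z.1 * Real.log t ^ z.2)) := by
  refine ⟨fun J c f hc hn hf B T U A => ?_, fun F a z₀ h1 h2 h3 => gp_sv F a z₀ h1 h2 h3⟩
  obtain ⟨N₁, h1⟩ := sv_tuplesC c f hc hn hf B T U A
  refine ⟨N₁ + 4, fun N hN s L hs hL j x hup hlow c₀ κ hc₀ hκ α hα g => ?_⟩
  have hN4 : 4 ≤ N := by omega
  have hL1 := log_pos4 N hN4
  have hLk := log_le_dg N (by omega)
  have hL0 : 0 < Real.log N := by linarith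
  have hpow : ∀ m : ℕ, Real.log N ^ m ≤ (dg N : ℝ) ^ m := fun m => pow_le_pow_left₀ hL0.le hLk m
  have h2 := h1 N (by omega) s L (by exact_mod_cast hs.trans (hpow T)) (by exact_mod_cast hL.trans (hpow T)) j x hup hlow
    c₀ κ hc₀ hκ α hα g
  rw [Pool.Agent.R459.Fams.count_eq] at h2
  have hP0 : 0 ≤ ∏ i, (x i : ℝ) := prod_nonneg fun i _ => Nat.cast_nonneg _
  refine le_trans (Nat.cast_le.2 (card_le_card fun n hn => ?_)) (h2.trans
    (div_le_div_of_nonneg_left hP0 (by positivity) (hpow U)))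
  rw [mem_filter] at hn ⊢
  refine ⟨hn.1, fun hcon => hn.2 ?_⟩
  intro l I hI q hq1 hq2 r u v huv
  have h3 := hcon l I hI q hq1 (by exact_mod_cast hq2.trans (hpow T)) r u v huv
  exact h3.trans (div_le_div_of_nonneg_left (Nat.cast_nonneg _) (by positivity) (hpow U))

end Pool.Agent.Results.MP_648c71_nt.ManyNonIntegralOrderFactors
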